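import Pool.Agent.X98.DV.Op

set_option autoImplicit false

/-! Four rows of the product of the odd parts are dependent. -/

open Polynomial

namespace Pool.Agent.X98.DV

theorem card_par (n : ℕ) [NeZero n] (q : ZMod 2) :
    Fintype.card {s : ZMod (2 * n) // par n s = q} = n := by
  have key : ∀ q : ZMod 2, Fintype.card {s : ZMod (2 * n) // par n s = q}
      = Fintype.card {s : ZMod (2 * n) // par n s = q + 1} := by
    intro q
    refine Fintype.card_congr ⟨fun s => ⟨s.1 + 1, by rw [map_add, map_one, s.2]⟩,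
      fun s => ⟨s.1 - 1, by rw [map_sub, map_one, s.2, add_sub_cancel_right]⟩, ?_, ?_⟩
    · intro s; ext; simp
    · intro s; ext; simp
  have tot : Fintype.card {s : ZMod (2 * n) // par n s = 0}
      + Fintype.card {s : ZMod (2 * n) // par n s = 1} = 2 * n := by
    have h1 := Fintype.card_subtype_compl (fun s : ZMod (2 * n) => par n s = 0)
    have h2 : Fintype.card {s : ZMod (2 * n) // ¬ par n s = 0}
        = Fintype.card {s : ZMod (2 * n) // par n s = 1} := by
      refine Fintype.card_congr (Equiv.subtypeEquivRight fun s => ?_)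
      generalize par n s = a
      revert a
      decide
    have h3 : Fintype.card {s : ZMod (2 * n) // par n s = 0} ≤ Fintype.card (ZMod (2 * n)) :=
      Fintype.card_subtype_le _
    rw [ZMod.card] at h1 h3
    omega
  have h0 := key 0
  rw [zero_add] at h0
  have hq : q = 0 ∨ q = 1 := by revert q; decide
  rcases hq with rfl | rfl <;> omega

theorem Nk_sum {n : ℕ} [NeZero n] {R : Type*} [CommRing R] (L : ℕ → ZMod (2 * n) → Fin 5 → R)
    (k : ℕ) (q : ZMod 2) (i : ZMod (2 * n)) (hi : par n i + k = q) (x : ZMod (2 * n) → R) :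
    Nk L k x i = ∑ s : {s : ZMod (2 * n) // par n s = q}, x s.1 * Nk L k (Pi.single s.1 1) i := by
  have h1 : x = ∑ s, x s • (Pi.single s 1 : ZMod (2 * n) → R) := by
    funext t
    rw [Finset.sum_apply, Finset.sum_eq_single t]
    · simp
    · intro b _ hb
      simp [hb.symm]
    · intro h; exact absurd (Finset.mem_univ _) h
  have h2 : Nk L k x i = ∑ s, x s * Nk L k (Pi.single s 1) i := by
    conv_lhs => rw [h1]
    rw [map_sum, Finset.sum_apply]
    refine Finset.sum_congr rfl fun s _ => ?_
    rw [map_smul, Pi.smul_apply, smul_eq_mul]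
  rw [h2, ← Finset.sum_subtype (Finset.univ.filter fun s => par n s = q) (by simp)
    (fun s => x s * Nk L k (Pi.single s 1) i), Finset.sum_filter_of_ne]
  intro s _ hs
  by_contra hne
  apply hs
  rw [Nk_par L k _ i, mul_zero]
  intro s' hs'
  rw [hi] at hs'
  rw [Pi.single_apply, if_neg]
  rintro rfl
  exact hne hs'

theorem dep {n m : ℕ} [NeZero n] (hm : m + 3 = n) {L : ℕ → ZMod (2 * n) → Fin 5 → ℝ[X]}
    {X' : ℕ → ZMod (2 * n) → ℝ[X]} (hX : ∀ j < m, Nk L m (X' j) = 0)
    {q : ZMod 2} {a : Fin m → ZMod (2 * n)} (ha : ∀ l, par n (a l) = q)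
    (hdet : (Matrix.of fun l j : Fin m => X' j (a l)).det ≠ 0)
    {r : Fin 4 → ZMod (2 * n)} (hr : ∀ b, par n (r b) + m = q) :
    ∃ l : Fin 4 → ℝ[X], (∃ b, (l b).eval 0 ≠ 0) ∧
      ∀ x, ∑ b, l b * Nk L m x (r b) = 0 := by
  classical
  obtain ⟨v, hv, i0, hi0⟩ := sol (K := ℝ) (ι := Fin 4 ⊕ Fin m)
    (κ := {s : ZMod (2 * n) // par n s = q})
    (by rw [card_par, Fintype.card_sum, Fintype.card_fin, Fintype.card_fin]; omega)
    (fun s => Sum.elim (fun b => Nk L m (Pi.single s.1 1) (r b)) (fun j => X' j s.1))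
  simp only [Fintype.sum_sum_type, Sum.elim_inl, Sum.elim_inr] at hv
  set y : {s : ZMod (2 * n) // par n s = q} → ℝ[X] :=
    fun s => ∑ b, Nk L m (Pi.single s.1 1) (r b) * v (Sum.inl b) with hy
  have hall : ∀ x, ∑ b, v (Sum.inl b) * Nk L m x (r b) = ∑ s, x s.1 * y s := by
    intro x
    have e : ∀ b, v (Sum.inl b) * Nk L m x (r b)
        = ∑ s : {s : ZMod (2 * n) // par n s = q},
          x s.1 * (Nk L m (Pi.single s.1 1) (r b) * v (Sum.inl b)) := by
      intro b
      rw [Nk_sum L m q (r b) (hr b) x, Finset.mul_sum]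
      exact Finset.sum_congr rfl fun s _ => by ring
    rw [Finset.sum_congr rfl fun b _ => e b, Finset.sum_comm]
    refine Finset.sum_congr rfl fun s _ => ?_
    rw [hy, Finset.mul_sum]
  have horth : ∀ j : Fin m, ∑ s, X' j s.1 * y s = 0 := by
    intro j
    rw [← hall, hX j j.2]
    simp
  have hyv : ∀ s, y s = -∑ j : Fin m, X' j s.1 * v (Sum.inr j) := by
    intro s
    exact eq_neg_of_add_eq_zero_left (hv s)
  have hsq : ∑ s, y s * y s = 0 := by
    have e : ∀ s, y s * y s = -∑ j : Fin m, v (Sum.inr j) * (X' j s.1 * y s) := by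
      intro s
      nth_rw 2 [hyv s]
      rw [mul_neg, Finset.mul_sum]
      congr 1
      exact Finset.sum_congr rfl fun j _ => by ring
    rw [Finset.sum_congr rfl fun s _ => e s, Finset.sum_neg_distrib, Finset.sum_comm, neg_eq_zero]
    refine Finset.sum_eq_zero fun j _ => ?_
    rw [← Finset.mul_sum, horth, mul_zero]
  have hy0 : ∀ s, y s = 0 := by
    intro s
    apply Polynomial.funext
    intro t
    have e := congrArg (Polynomial.eval t) hsq
    rw [Polynomial.eval_finsetSum, Polynomial.eval_zero] at e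
    have e2 := (Finset.sum_eq_zero_iff_of_nonneg (fun s _ => by
      rw [Polynomial.eval_mul]; exact mul_self_nonneg _)).1 e s (Finset.mem_univ s)
    rw [Polynomial.eval_mul] at e2
    rw [Polynomial.eval_zero]
    exact mul_self_eq_zero.1 e2
  have hmu : (fun j => v (Sum.inr j)) = (0 : Fin m → ℝ[X]) := by
    refine Matrix.eq_zero_of_mulVec_eq_zero hdet ?_
    funext l
    have := hyv ⟨a l, ha l⟩
    rw [hy0] at this
    rw [Matrix.mulVec, dotProduct, Pi.zero_apply]
    exact (neg_eq_zero.1 this.symm)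
  refine ⟨fun b => v (Sum.inl b), ?_, fun x => ?_⟩
  · rcases i0 with b | j
    · exact ⟨b, hi0⟩
    · exfalso
      apply hi0
      have := congrFun hmu j
      simp only [Pi.zero_apply] at this
      rw [this, Polynomial.eval_zero]
  · rw [hall]
    exact Finset.sum_eq_zero fun s _ => by rw [hy0, mul_zero]

end Pool.Agent.X98.DV
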