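import Pool.Agent.X98.DV.Gen

set_option autoImplicit false

/-! The deformation of the initial operator to a generic one. -/

open Polynomial

namespace Pool.Agent.X98.DV

theorem Xs_map {N : ℕ} [NeZero N] {R S : Type*} [CommRing R] [CommRing S] (f : R →+* S)
    (α β γ : ZMod N → R) (j : ℕ) (i : ZMod N) :
    f (Xs α β γ j i) = Xs (fun i => f (α i)) (fun i => f (β i)) (fun i => f (γ i)) j i := by
  induction j generalizing i with
  | zero =>
    show f (bh β i) = bh _ i
    unfold bh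
    rw [map_prod]
  | succ j ih =>
    show f (bh β i * (α i * Xs α β γ j (i - 1) + γ i * Xs α β γ j (i + 1)))
      = bh _ i * (f (α i) * Xs _ _ _ j (i - 1) + f (γ i) * Xs _ _ _ j (i + 1))
    rw [map_mul, map_add, map_mul, map_mul, ih, ih]
    congr 1
    unfold bh
    rw [map_prod]

theorem Xs_special {N : ℕ} [NeZero N] (u : ZMod N → ℝ) (hu : ∀ i, u i ≠ 0) (j : ℕ) (i : ZMod N) :
    Xs (fun _ => 0) (fun i => (u i)⁻¹) (fun _ => 1) j i
      = (∏ l, (u l)⁻¹) ^ (j + 1) * ∏ h ∈ Finset.range (j + 1), u (i + h) := by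
  have hb : ∀ i, bh (fun i => (u i)⁻¹) i = (∏ l, (u l)⁻¹) * u i := by
    intro i
    have := mul_bh (fun i => (u i)⁻¹) i
    rw [← this]
    field_simp [hu i]
  induction j generalizing i with
  | zero =>
    show bh _ i = _
    rw [hb]
    simp
  | succ j ih =>
    show bh _ i * (0 * Xs _ _ _ j (i - 1) + 1 * Xs _ _ _ j (i + 1)) = _
    have e : ∏ h ∈ Finset.range (j + 1 + 1), u (i + (h : ZMod N))
        = (∏ h ∈ Finset.range (j + 1), u (i + 1 + (h : ZMod N))) * u i := by
      rw [Finset.prod_range_succ' (fun h : ℕ => u (i + (h : ZMod N))) (j + 1)]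
      congr 1
      · refine Finset.prod_congr rfl fun h _ => ?_
        congr 1
        push_cast
        ring
      · simp
    rw [hb, ih (i + 1), zero_mul, zero_add, one_mul, e]
    ring

/-- the relation `D_{i-1} - D_{i+1}` -/
def dD {N : ℕ} {R : Type*} [CommRing R] (α β γ : ZMod N → R) (i : ZMod N) : Fin 5 → R :=
  ![α (i - 1), β (i - 1), γ (i - 1) - α (i + 1), -β (i + 1), -γ (i + 1)]

theorem fam {n m : ℕ} [NeZero n] (hm : m + 3 = n) (q : ZMod (2 * n))
    (α β γ : ZMod (2 * n) → ℝ) (ℓ : ZMod (2 * n) → Fin 5 → ℝ)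
    (hiso : ∀ i, dD α β γ i = 0 → dD α β γ (i + 2) ≠ 0)
    (hℓ : ∀ i, dD α β γ i ≠ 0 → ℓ i = dD α β γ i) :
    ∃ (c : ZMod (2 * n) → Fin 5 → ℝ[X]) (w A B G : ZMod (2 * n) → ℝ[X])
      (a : Fin m → ZMod (2 * n)), Init w A B G c ∧ (∀ i, w i ≠ 0) ∧
      (∀ i j, (c i j).eval 0 = ℓ i j) ∧ (∀ l, par n (a l) = par n q) ∧
      (Matrix.of fun l j : Fin m => Xs A B G j (a l)).det ≠ 0 := by
  classical
  obtain ⟨u, a, hu, hpar, hdet⟩ := gen hm q
  let s : ZMod (2 * n) → Fin 5 → ℝ := fun i j => if dD α β γ i = 0 then ℓ i j else 0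
  let A : ZMod (2 * n) → ℝ[X] := fun i => (1 - X) * (C (α i) + X * C (s (i + 1) 0))
  let B : ZMod (2 * n) → ℝ[X] := fun i =>
    (1 - X) * (C (β i) + X * C (s (i + 1) 1 - s (i - 1) 3)) + X ^ 2 * C ((u i)⁻¹)
  let G : ZMod (2 * n) → ℝ[X] := fun i =>
    (1 - X) * (C (γ i) + X * C (s (i + 1) 2 - s (i - 1) 4)) + X ^ 2
  let w : ZMod (2 * n) → ℝ[X] := fun i => if dD α β γ i = 0 then X else 1
  let d' : ZMod (2 * n) → Fin 5 → ℝ := fun i => ![0, (u (i - 1))⁻¹, 1, -(u (i + 1))⁻¹, -1]
  let c : ZMod (2 * n) → Fin 5 → ℝ[X] := fun i j =>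
    if dD α β γ i = 0 then (1 - X) * C (ℓ i j) + X * C (d' i j) else dD A B G i j
  refine ⟨c, w, A, B, G, a, ?_, ?_, ?_, hpar, ?_⟩
  · -- the initial relations
    have key : ∀ i, w i * c i 0 = A (i - 1) ∧ w i * c i 1 = B (i - 1) ∧
        w i * c i 2 = G (i - 1) - A (i + 1) ∧ w i * c i 3 = -B (i + 1) ∧
        w i * c i 4 = -G (i + 1) := by
      intro i
      by_cases hi : dD α β γ i = 0
      · have hw : w i = X := if_pos hi
        have hc : ∀ j, c i j = (1 - X) * C (ℓ i j) + X * C (d' i j) := fun j => if_pos hi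
        have hs : ∀ j, s i j = ℓ i j := fun j => if_pos hi
        have hs1 : ∀ j, s (i + 2) j = 0 := fun j => if_neg (hiso i hi)
        have hs2 : ∀ j, s (i - 2) j = 0 := fun j => if_neg (fun h => by
          have := hiso (i - 2) h
          rw [sub_add_cancel] at this
          exact this hi)
        have g0 : α (i - 1) = 0 := congrFun hi 0
        have g1 : β (i - 1) = 0 := congrFun hi 1
        have g2 : γ (i - 1) - α (i + 1) = 0 := congrFun hi 2
        have g3 : β (i + 1) = 0 := neg_eq_zero.1 (congrFun hi 3)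
        have g4 : γ (i + 1) = 0 := neg_eq_zero.1 (congrFun hi 4)
        have b1 : i - 1 + 1 = i := by ring
        have b2 : i - 1 - 1 = i - 2 := by ring
        have b3 : i + 1 + 1 = i + 2 := by ring
        have b4 : i + 1 - 1 = i := by ring
        have d0 : d' i 0 = 0 := rfl
        have d1 : d' i 1 = (u (i - 1))⁻¹ := rfl
        have d2 : d' i 2 = 1 := rfl
        have d3 : d' i 3 = -(u (i + 1))⁻¹ := rfl
        have d4 : d' i 4 = -1 := rfl
        have hA1 : A (i - 1) = (1 - X) * (C (α (i - 1)) + X * C (s (i - 1 + 1) 0)) := rfl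
        have hA2 : A (i + 1) = (1 - X) * (C (α (i + 1)) + X * C (s (i + 1 + 1) 0)) := rfl
        have hB1 : B (i - 1) = (1 - X) * (C (β (i - 1)) + X * C (s (i - 1 + 1) 1
          - s (i - 1 - 1) 3)) + X ^ 2 * C ((u (i - 1))⁻¹) := rfl
        have hB2 : B (i + 1) = (1 - X) * (C (β (i + 1)) + X * C (s (i + 1 + 1) 1
          - s (i + 1 - 1) 3)) + X ^ 2 * C ((u (i + 1))⁻¹) := rfl
        have hG1 : G (i - 1) = (1 - X) * (C (γ (i - 1)) + X * C (s (i - 1 + 1) 2
          - s (i - 1 - 1) 4)) + X ^ 2 := rfl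
        have hG2 : G (i + 1) = (1 - X) * (C (γ (i + 1)) + X * C (s (i + 1 + 1) 2
          - s (i + 1 - 1) 4)) + X ^ 2 := rfl
        have g2' : γ (i - 1) = α (i + 1) := sub_eq_zero.1 g2
        rw [hw, hc, hc, hc, hc, hc, d0, d1, d2, d3, d4, hA1, hA2, hB1, hB2, hG1, hG2, b1, b2, b3,
          b4, hs, hs, hs, hs, hs, hs1, hs1, hs1, hs2, hs2, g0, g1, g2', g3, g4]
        simp only [map_zero, map_sub, map_neg, map_one]
        refine ⟨?_, ?_, ?_, ?_, ?_⟩ <;> ring
      · have hw : w i = 1 := if_neg hi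
        have hc : ∀ j, c i j = dD A B G i j := fun j => if_neg hi
        rw [hw, hc, hc, hc, hc, hc]
        exact ⟨one_mul _, one_mul _, one_mul _, one_mul _, one_mul _⟩
    exact ⟨fun i => (key i).1, fun i => (key i).2.1, fun i => (key i).2.2.1,
      fun i => (key i).2.2.2.1, fun i => (key i).2.2.2.2⟩
  · intro i
    by_cases hi : dD α β γ i = 0
    · have hw : w i = X := if_pos hi
      rw [hw]
      exact X_ne_zero
    · have hw : w i = 1 := if_neg hi
      rw [hw]
      exact one_ne_zero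
  · intro i j
    by_cases hi : dD α β γ i = 0
    · have hc : c i j = (1 - X) * C (ℓ i j) + X * C (d' i j) := if_pos hi
      rw [hc]
      simp
    · have hc : c i j = dD A B G i j := if_neg hi
      rw [hc, hℓ i hi]
      have hA : ∀ i, (A i).eval 0 = α i := by
        intro i
        show ((1 - X) * (C (α i) + X * C (s (i + 1) 0))).eval 0 = α i
        simp
      have hB : ∀ i, (B i).eval 0 = β i := by
        intro i
        show ((1 - X) * (C (β i) + X * C (s (i + 1) 1 - s (i - 1) 3))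
          + X ^ 2 * C ((u i)⁻¹)).eval 0 = β i
        simp
      have hG : ∀ i, (G i).eval 0 = γ i := by
        intro i
        show ((1 - X) * (C (γ i) + X * C (s (i + 1) 2 - s (i - 1) 4)) + X ^ 2).eval 0 = γ i
        simp
      match j with
      | 0 => exact hA _
      | 1 => exact hB _
      | 2 =>
        show (G (i - 1) - A (i + 1)).eval 0 = γ (i - 1) - α (i + 1)
        rw [eval_sub, hA, hG]
      | 3 =>
        show (-B (i + 1)).eval 0 = -β (i + 1)
        rw [eval_neg, hB]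
      | 4 =>
        show (-G (i + 1)).eval 0 = -γ (i + 1)
        rw [eval_neg, hG]
  · intro h0
    have h1 : (evalRingHom (1 : ℝ)) (Matrix.of fun l j : Fin m => Xs A B G j (a l)).det = 0 := by
      rw [h0, map_zero]
    rw [RingHom.map_det] at h1
    have h2 : (evalRingHom (1 : ℝ)).mapMatrix (Matrix.of fun l j : Fin m => Xs A B G j (a l))
        = Matrix.of fun l j : Fin m => (∏ l, (u l)⁻¹) ^ ((j : ℕ) + 1) *
          (Matrix.of fun l j : Fin m => ∏ h ∈ Finset.range ((j : ℕ) + 1), u (a l + h)) l j := by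
      ext l j
      show (evalRingHom (1 : ℝ)) (Xs A B G j (a l)) = (∏ l, (u l)⁻¹) ^ ((j : ℕ) + 1) *
        ∏ h ∈ Finset.range ((j : ℕ) + 1), u (a l + h)
      rw [Xs_map, ← Xs_special u hu]
      congr 1
      · funext i
        show ((1 - X) * (C (α i) + X * C (s (i + 1) 0))).eval 1 = 0
        simp
      · funext i
        show ((1 - X) * (C (β i) + X * C (s (i + 1) 1 - s (i - 1) 3))
          + X ^ 2 * C ((u i)⁻¹)).eval 1 = (u i)⁻¹
        simp
      · funext i
        show ((1 - X) * (C (γ i) + X * C (s (i + 1) 2 - s (i - 1) 4)) + X ^ 2).eval 1 = 1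
        simp
    rw [h2, Matrix.det_mul_row] at h1
    rcases mul_eq_zero.1 h1 with h | h
    · obtain ⟨j, -, hj⟩ := Finset.prod_eq_zero_iff.1 h
      have := pow_eq_zero_iff (by omega) |>.1 hj
      obtain ⟨l, -, hl⟩ := Finset.prod_eq_zero_iff.1 this
      exact hu l (inv_eq_zero.1 hl)
    · exact hdet h

end Pool.Agent.X98.DV
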