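import Pool.Agent.X98.DV.Dep

set_option autoImplicit false

/-! An explicit direction for which the chain is independent on a parity class. -/

open Polynomial

namespace Pool.Agent.X98.DV

theorem gen {n m : ℕ} [NeZero n] (hm : m + 3 = n) (q : ZMod (2 * n)) :
    ∃ (u : ZMod (2 * n) → ℝ) (a : Fin m → ZMod (2 * n)), (∀ i, u i ≠ 0) ∧
      (∀ l, par n (a l) = par n q) ∧
      (Matrix.of fun l j : Fin m => ∏ h ∈ Finset.range ((j : ℕ) + 1), u (a l + h)).det ≠ 0 := by
  classical
  obtain ⟨c, hc1, hc2⟩ : ∃ c : ℕ, n ≤ 2 * c ∧ 2 * c ≤ n + 1 := ⟨(n + 1) / 2, by omega, by omega⟩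
  have nz : ∀ k : ℕ, 0 < k → k < 2 * n → (k : ZMod (2 * n)) ≠ 0 := fun k h1 h2 h =>
    absurd (Nat.le_of_dvd h1 ((ZMod.natCast_eq_zero_iff k (2 * n)).1 h)) (by omega)
  let z1 : ZMod (2 * n) := q + 1
  let z2 : ZMod (2 * n) := q + 2 * c
  let pu : ZMod (2 * n) → ℝ[X] := fun i => if i = z1 ∨ i = z2 then X else 1
  let a : Fin m → ZMod (2 * n) := fun l =>
    if Even (l : ℕ) then q - (l : ℕ) else q + 2 * c - ((l : ℕ) + 1)
  have hpar : ∀ l, par n (a l) = par n q := by
    intro l
    by_cases hl : Even (l : ℕ)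
    · have e : a l = q - (l : ℕ) := if_pos hl
      obtain ⟨b, hb⟩ := hl
      rw [e, hb, map_sub, map_natCast]
      push_cast
      have : (b : ZMod 2) + b = 0 := CharTwo.add_self_eq_zero _
      rw [this, sub_zero]
    · have e : a l = q + 2 * c - ((l : ℕ) + 1) := if_neg hl
      obtain ⟨b, hb⟩ := Nat.not_even_iff_odd.1 hl
      rw [e, hb, map_sub, map_add, map_mul, map_add, map_natCast, map_natCast, map_one]
      push_cast
      have h2 : (par n) 2 = 0 := by
        have : (2 : ZMod (2 * n)) = ((2 : ℕ) : ZMod (2 * n)) := by norm_num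
        rw [this, map_natCast]
        decide
      have h3 : (2 : ZMod 2) = 0 := by decide
      rw [h2, h3]
      have h4 : (1 : ZMod 2) + 1 = 0 := by decide
      linear_combination -h4
  -- the sites before the zeros
  have good : ∀ (l : Fin m) (h : ℕ), h ≤ (l : ℕ) → ¬ (a l + h = z1 ∨ a l + h = z2) := by
    intro l h hh
    have hlm := l.2
    by_cases hl : Even (l : ℕ)
    · have e : a l = q - (l : ℕ) := if_pos hl
      rw [e]
      rintro (e' | e')
      · apply nz ((l : ℕ) + 1 - h) (by omega) (by omega)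
        rw [Nat.cast_sub (by omega)]
        push_cast
        linear_combination -e'
      · apply nz (2 * c + (l : ℕ) - h) (by omega) (by omega)
        rw [Nat.cast_sub (by omega)]
        push_cast
        linear_combination -e'
    · have e : a l = q + 2 * c - ((l : ℕ) + 1) := if_neg hl
      rw [e]
      rintro (e' | e')
      · apply nz (2 * c + h - ((l : ℕ) + 2)) (by omega) (by omega)
        rw [Nat.cast_sub (by omega)]
        push_cast
        linear_combination e'
      · apply nz ((l : ℕ) + 1 - h) (by omega) (by omega)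
        rw [Nat.cast_sub (by omega)]
        push_cast
        linear_combination -e'
  have bad : ∀ l : Fin m, a l + ((l : ℕ) + 1 : ℕ) = z1 ∨ a l + ((l : ℕ) + 1 : ℕ) = z2 := by
    intro l
    by_cases hl : Even (l : ℕ)
    · left
      have e : a l = q - (l : ℕ) := if_pos hl
      rw [e]
      push_cast
      ring
    · right
      have e : a l = q + 2 * c - ((l : ℕ) + 1) := if_neg hl
      rw [e]
      push_cast
      ring
  let Mp : Matrix (Fin m) (Fin m) ℝ[X] :=
    Matrix.of fun l j : Fin m => ∏ h ∈ Finset.range ((j : ℕ) + 1), pu (a l + h)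
  have hMp : (Mp.det).eval 0 = 1 := by
    have h1 : (Mp.det).eval 0 = (Mp.map (evalRingHom (0 : ℝ))).det := by
      rw [← coe_evalRingHom, RingHom.map_det]
      rfl
    rw [h1]
    have hlow : (Mp.map (evalRingHom (0 : ℝ))).IsLowerTriangular := by
      intro l j hlj
      have hlj' : (l : ℕ) < (j : ℕ) := hlj
      show (evalRingHom (0 : ℝ)) (∏ h ∈ Finset.range ((j : ℕ) + 1), pu (a l + h)) = 0
      rw [map_prod]
      refine Finset.prod_eq_zero (i := (l : ℕ) + 1) (Finset.mem_range.2 (by omega)) ?_
      have : pu (a l + ((l : ℕ) + 1 : ℕ)) = X := if_pos (bad l)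
      rw [this, coe_evalRingHom, eval_X]
    rw [Matrix.det_of_isLowerTriangular _ hlow]
    refine Finset.prod_eq_one fun l _ => ?_
    show (evalRingHom (0 : ℝ)) (∏ h ∈ Finset.range ((l : ℕ) + 1), pu (a l + h)) = 1
    rw [map_prod]
    refine Finset.prod_eq_one fun h hh => ?_
    have : pu (a l + h) = 1 := if_neg (good l h (by
      have := Finset.mem_range.1 hh
      omega))
    rw [this, map_one]
  obtain ⟨ε, hε⟩ : ∃ ε : ℝ, (Mp.det * X).eval ε ≠ 0 := by
    by_contra hcon
    push Not at hcon
    have h0 : Mp.det * X = 0 := Polynomial.funext fun r => by rw [hcon r, eval_zero]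
    rcases mul_eq_zero.1 h0 with h | h
    · rw [h, eval_zero] at hMp
      exact zero_ne_one hMp
    · exact X_ne_zero h
  rw [eval_mul, eval_X] at hε
  have hε0 : ε ≠ 0 := right_ne_zero_of_mul hε
  have hd : (Mp.det).eval ε ≠ 0 := left_ne_zero_of_mul hε
  refine ⟨fun i => (pu i).eval ε, a, fun i => ?_, hpar, ?_⟩
  · by_cases hi : i = z1 ∨ i = z2
    · have : pu i = X := if_pos hi
      show (pu i).eval ε ≠ 0
      rw [this, eval_X]
      exact hε0
    · have : pu i = 1 := if_neg hi
      show (pu i).eval ε ≠ 0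
      rw [this, eval_one]
      exact one_ne_zero
  · have h1 : (Mp.det).eval ε = (Mp.map (evalRingHom ε)).det := by
      rw [← coe_evalRingHom, RingHom.map_det]
      rfl
    rw [h1] at hd
    convert hd using 2
    ext l j
    show _ = (evalRingHom ε) (∏ h ∈ Finset.range ((j : ℕ) + 1), pu (a l + h))
    rw [map_prod]
    rfl

end Pool.Agent.X98.DV
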