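import Pool.Agent.X98.DV.Fam

set_option autoImplicit false

/-! From polygons to operators. -/

open Polynomial

namespace Pool.Agent.X98.DV

theorem exNext {N : ℕ} {K : Type*} [Field K] (c : ZMod N → Fin 5 → K[X]) :
    ∃ c' : ZMod N → Fin 5 → K[X], Refac c c' ∧ ∀ i, ∃ j, (c' i j).eval 0 ≠ 0 := by
  have h : ∀ i : ZMod N, ∃ v : Fin 5 → K[X],
      v 1 * c (i - 1) 0 = v 0 * c (i - 2) 1 ∧
      v 1 * c (i - 1) 2 + v 3 * c (i + 1) 0 = v 0 * c (i - 2) 3 + v 2 * c i 1 ∧
      v 1 * c (i - 1) 4 + v 3 * c (i + 1) 2 = v 2 * c i 3 + v 4 * c (i + 2) 1 ∧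
      v 3 * c (i + 1) 4 = v 4 * c (i + 2) 3 ∧ ∃ j, (v j).eval 0 ≠ 0 := by
    intro i
    obtain ⟨v, hv, hj⟩ := sol (K := K) (ι := Fin 5) (κ := Fin 4) (by simp)
      ![![-c (i - 2) 1, c (i - 1) 0, 0, 0, 0],
        ![-c (i - 2) 3, c (i - 1) 2, -c i 1, c (i + 1) 0, 0],
        ![0, c (i - 1) 4, -c i 3, c (i + 1) 2, -c (i + 2) 1],
        ![0, 0, 0, c (i + 1) 4, -c (i + 2) 3]]
    refine ⟨v, ?_, ?_, ?_, ?_, hj⟩
    · have h0 := hv 0
      rw [Fin.sum_univ_five] at h0
      change -c (i - 2) 1 * v 0 + c (i - 1) 0 * v 1 + 0 * v 2 + 0 * v 3 + 0 * v 4 = 0 at h0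
      linear_combination h0
    · have h0 := hv 1
      rw [Fin.sum_univ_five] at h0
      change -c (i - 2) 3 * v 0 + c (i - 1) 2 * v 1 + -c i 1 * v 2 + c (i + 1) 0 * v 3
          + 0 * v 4 = 0 at h0
      linear_combination h0
    · have h0 := hv 2
      rw [Fin.sum_univ_five] at h0
      change 0 * v 0 + c (i - 1) 4 * v 1 + -c i 3 * v 2 + c (i + 1) 2 * v 3
          + -c (i + 2) 1 * v 4 = 0 at h0
      linear_combination h0
    · have h0 := hv 3
      rw [Fin.sum_univ_five] at h0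
      change 0 * v 0 + 0 * v 1 + 0 * v 2 + c (i + 1) 4 * v 3 + -c (i + 2) 3 * v 4 = 0 at h0
      linear_combination h0
  choose c' h1 h2 h3 h4 h5 using h
  exact ⟨c', ⟨h1, h2, h3, h4⟩, h5⟩

theorem exL {N : ℕ} {K : Type*} [Field K] (c : ZMod N → Fin 5 → K[X]) :
    ∃ L : ℕ → ZMod N → Fin 5 → K[X], L 0 = c ∧ (∀ k, Refac (L k) (L (k + 1))) ∧
      ∀ k i, ∃ j, (L (k + 1) i j).eval 0 ≠ 0 := by
  choose nx h1 h2 using fun c : ZMod N → Fin 5 → K[X] => exNext c
  refine ⟨fun k => nx^[k] c, rfl, fun k => ?_, fun k i => ?_⟩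
  · show Refac (nx^[k] c) (nx^[k + 1] c)
    rw [Function.iterate_succ_apply']
    exact h1 _
  · show ∃ j, (nx^[k + 1] c i j).eval 0 ≠ 0
    rw [Function.iterate_succ_apply']
    exact h2 _ i

theorem Nk_map {N : ℕ} {R S : Type*} [CommRing R] [CommRing S] (f : R →+* S)
    (L : ℕ → ZMod N → Fin 5 → R) (k : ℕ) (x : ZMod N → R) (i : ZMod N) :
    f (Nk L k x i) = Nk (fun k i j => f (L k i j)) k (fun s => f (x s)) i := by
  induction k generalizing i with
  | zero => rfl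
  | succ k ih =>
    rw [Nk_succ, Nk_succ, Lp_apply, Lp_apply, map_add, map_mul, map_mul, ih, ih]

theorem rel {N : ℕ} {R : Type*} [CommRing R] {L : ℕ → ZMod N → Fin 5 → R}
    (hL : ∀ k, Refac (L k) (L (k + 1))) {x : ZMod N → R} (h0 : Lp (L 0) x + Lm (L 0) x = 0) :
    ∀ k, Lp (L k) (Nk L k x) + Lm (L k) (Nk L k x) = 0 := by
  intro k
  induction k with
  | zero => exact h0
  | succ k ih =>
    rw [Nk_succ, ← (hL k).comm, ← map_add, ih, map_zero]

/-- the iterated vectors -/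
def vec {N : ℕ} (L : ℕ → ZMod N → Fin 5 → ℝ) (a : ZMod N → Fin 4 → ℝ) : ℕ → ZMod N → Fin 4 → ℝ
  | 0 => a
  | k + 1 => fun i => L k i 1 • vec L a k (i - 1) + L k i 3 • vec L a k (i + 1)

theorem vec_apply {N : ℕ} (L : ℕ → ZMod N → Fin 5 → ℝ) (a : ZMod N → Fin 4 → ℝ) (k : ℕ)
    (i : ZMod N) (t : Fin 4) : vec L a k i t = Nk L k (fun s => a s t) i := by
  induction k generalizing i with
  | zero => rfl
  | succ k ih =>
    show (L k i 1 • vec L a k (i - 1) + L k i 3 • vec L a k (i + 1)) t = _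
    rw [Pi.add_apply, Pi.smul_apply, Pi.smul_apply, smul_eq_mul, smul_eq_mul, ih, ih]
    rfl

theorem main_vec {n m : ℕ} [NeZero n] (hm : m + 3 = n) (r : ZMod 2)
    (a P : ZMod (2 * n) → Fin 4 → ℝ) (hP0 : ∀ i, P i ≠ 0) (hP : ∀ i, P (i + 2) = P i)
    (hface : ∀ i, ∃ α β γ : ℝ, α • a (i - 1) + β • a i + γ • a (i + 1) = P i) :
    ∃ L : ℕ → ZMod (2 * n) → Fin 5 → ℝ, (∀ k i, L k i ≠ 0) ∧
      (∀ k i, L k i 0 • vec L a k (i - 2) + L k i 1 • vec L a k (i - 1) + L k i 2 • vec L a k i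
        + L k i 3 • vec L a k (i + 1) + L k i 4 • vec L a k (i + 2) = 0) ∧
      ∀ ρ : Fin 4 → ZMod (2 * n), (∀ b, par n (ρ b) = r) →
        ¬ LinearIndependent ℝ (fun b => vec L a m (ρ b)) := by
  classical
  choose α β γ hD using hface
  have hrelD : ∀ i, dD α β γ i 0 • a (i - 2) + dD α β γ i 1 • a (i - 1) + dD α β γ i 2 • a i
      + dD α β γ i 3 • a (i + 1) + dD α β γ i 4 • a (i + 2) = 0 := by
    intro i
    show α (i - 1) • a (i - 2) + β (i - 1) • a (i - 1) + (γ (i - 1) - α (i + 1)) • a i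
      + (-β (i + 1)) • a (i + 1) + (-γ (i + 1)) • a (i + 2) = 0
    have h1 := hD (i - 1)
    have h2 := hD (i + 1)
    have h3 := hP (i - 1)
    have b1 : i - 1 + 1 = i := by ring
    have b2 : i - 1 - 1 = i - 2 := by ring
    have b3 : i + 1 + 1 = i + 2 := by ring
    have b4 : i + 1 - 1 = i := by ring
    have b5 : i - 1 + 2 = i + 1 := by ring
    rw [b1, b2] at h1
    rw [b3, b4] at h2
    rw [b5] at h3
    have h4 := h1.trans (h3.symm.trans h2.symm)
    rw [← sub_eq_zero] at h4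
    rw [← h4]
    module
  have hex : ∀ i, ∃ g : Fin 5 → ℝ, g ≠ 0 ∧ g 0 • a (i - 2) + g 1 • a (i - 1) + g 2 • a i
      + g 3 • a (i + 1) + g 4 • a (i + 2) = 0 := by
    intro i
    have hli : ¬ LinearIndependent ℝ ![a (i - 2), a (i - 1), a i, a (i + 1), a (i + 2)] := by
      intro hl
      have := hl.fintype_card_le_finrank
      rw [Module.finrank_fintype_fun_eq_card] at this
      simp at this
    obtain ⟨g, hg, j, hj⟩ := Fintype.not_linearIndependent_iff.1 hli
    refine ⟨g, fun h => hj (by rw [h]; rfl), ?_⟩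
    rw [Fin.sum_univ_five] at hg
    exact hg
  let ℓ : ZMod (2 * n) → Fin 5 → ℝ := fun i =>
    if dD α β γ i = 0 then (hex i).choose else dD α β γ i
  have hℓ0 : ∀ i, ℓ i ≠ 0 := by
    intro i
    by_cases hi : dD α β γ i = 0
    · have e : ℓ i = (hex i).choose := if_pos hi
      rw [e]; exact (hex i).choose_spec.1
    · have e : ℓ i = dD α β γ i := if_neg hi
      rw [e]; exact hi
  have hℓr : ∀ i, ℓ i 0 • a (i - 2) + ℓ i 1 • a (i - 1) + ℓ i 2 • a i
      + ℓ i 3 • a (i + 1) + ℓ i 4 • a (i + 2) = 0 := by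
    intro i
    by_cases hi : dD α β γ i = 0
    · have e : ℓ i = (hex i).choose := if_pos hi
      rw [e]; exact (hex i).choose_spec.2
    · have e : ℓ i = dD α β γ i := if_neg hi
      rw [e]; exact hrelD i
  have hiso : ∀ i, dD α β γ i = 0 → dD α β γ (i + 2) ≠ 0 := by
    intro i h1 h2
    have g3 : β (i + 1) = 0 := neg_eq_zero.1 (congrFun h1 3)
    have g4 : γ (i + 1) = 0 := neg_eq_zero.1 (congrFun h1 4)
    have g0 : α (i + 2 - 1) = 0 := congrFun h2 0
    have b : i + 2 - 1 = i + 1 := by ring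
    rw [b] at g0
    apply hP0 (i + 1)
    rw [← hD, g0, g3, g4]
    simp
  have hq : par n (((r.val + m : ℕ)) : ZMod (2 * n)) = r + m := by
    rw [map_natCast]
    push_cast
    rw [ZMod.natCast_zmod_val]
  obtain ⟨c, w, A, B, G, st, hinit, hw, hc0, hst, hdet⟩ :=
    fam hm (((r.val + m : ℕ)) : ZMod (2 * n)) α β γ ℓ hiso (fun i hi => if_neg hi)
  obtain ⟨L, hL0, hLr, hLn⟩ := exL c
  have hX : ∀ j < m, Nk L m (Xs A B G j) = 0 := by
    intro j hj
    refine chain_zero hLr (g := ∏ l, B l) ?_ ?_ m j hj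
    · rw [hL0]; exact init0 hinit hw
    · intro j
      rw [hL0]; exact init1 hinit hw j
  let Lr : ℕ → ZMod (2 * n) → Fin 5 → ℝ := fun k i j => evalRingHom (0 : ℝ) (L k i j)
  have hRr : ∀ k, Refac (Lr k) (Lr (k + 1)) := by
    intro k
    refine ⟨fun i => ?_, fun i => ?_, fun i => ?_, fun i => ?_⟩
    · have := congrArg (evalRingHom (0 : ℝ)) ((hLr k).e1 i)
      simpa only [map_mul, map_add] using this
    · have := congrArg (evalRingHom (0 : ℝ)) ((hLr k).e2 i)
      simpa only [map_mul, map_add] using this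
    · have := congrArg (evalRingHom (0 : ℝ)) ((hLr k).e3 i)
      simpa only [map_mul, map_add] using this
    · have := congrArg (evalRingHom (0 : ℝ)) ((hLr k).e4 i)
      simpa only [map_mul, map_add] using this
  have hLr0 : ∀ i j, Lr 0 i j = ℓ i j := by
    intro i j
    show evalRingHom (0 : ℝ) (L 0 i j) = ℓ i j
    rw [hL0]
    exact hc0 i j
  refine ⟨Lr, ?_, ?_, ?_⟩
  · intro k i
    rcases k with _ | k
    · intro h
      apply hℓ0 i
      funext j
      rw [← hLr0, h]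
    · intro h
      obtain ⟨j, hj⟩ := hLn k i
      exact hj (congrFun h j)
  · intro k i
    funext t
    have h0 : Lp (Lr 0) (fun s => a s t) + Lm (Lr 0) (fun s => a s t) = 0 := by
      funext i
      rw [Pi.add_apply, Lp_apply, Lm_apply, hLr0, hLr0, hLr0, hLr0, hLr0, Pi.zero_apply]
      have := congrFun (hℓr i) t
      simp only [Pi.add_apply, Pi.smul_apply, smul_eq_mul, Pi.zero_apply] at this
      linear_combination this
    have h1 := congrFun (rel hRr h0 k) i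
    rw [Pi.add_apply, Lp_apply, Lm_apply, Pi.zero_apply] at h1
    simp only [Pi.add_apply, Pi.smul_apply, smul_eq_mul, Pi.zero_apply, vec_apply]
    linear_combination h1
  · intro ρ hρ
    obtain ⟨l, ⟨b0, hb0⟩, hl⟩ := dep hm hX (q := r + m) (a := st)
      (fun l => by rw [hst l, hq]) hdet (r := ρ) (fun b => by rw [hρ b])
    rw [Fintype.not_linearIndependent_iff]
    refine ⟨fun b => (l b).eval 0, ?_, b0, hb0⟩
    funext t
    have h1 := congrArg (evalRingHom (0 : ℝ)) (hl (fun s => C (a s t)))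
    rw [map_sum, map_zero] at h1
    rw [Finset.sum_apply, Pi.zero_apply]
    refine Eq.trans ?_ h1
    refine Finset.sum_congr rfl fun b _ => ?_
    rw [map_mul, Nk_map, Pi.smul_apply, smul_eq_mul, vec_apply]
    have e : (fun s => evalRingHom (0 : ℝ) (C (a s t))) = fun s => a s t := by
      funext s
      simp
    rw [e]
    rfl

end Pool.Agent.X98.DV
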