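import Mathlib

set_option autoImplicit false

/-! Periodic difference operators, refactorization and chains. -/

open Polynomial

namespace Pool.Agent.X98.DV

section op

variable {N : ℕ} {R : Type*} [CommRing R]

/-- The odd part `c₁ T⁻¹ + c₃ T` of the operator `c₀T⁻² + c₁T⁻¹ + c₂ + c₃T + c₄T²`. -/
def Lp (c : ZMod N → Fin 5 → R) : (ZMod N → R) →ₗ[R] (ZMod N → R) where
  toFun x i := c i 1 * x (i - 1) + c i 3 * x (i + 1)
  map_add' x y := by funext i; simp only [Pi.add_apply]; ring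
  map_smul' r x := by funext i; simp only [Pi.smul_apply, smul_eq_mul, RingHom.id_apply]; ring

/-- The even part `c₀T⁻² + c₂ + c₄T²`. -/
def Lm (c : ZMod N → Fin 5 → R) : (ZMod N → R) →ₗ[R] (ZMod N → R) where
  toFun x i := c i 0 * x (i - 2) + c i 2 * x i + c i 4 * x (i + 2)
  map_add' x y := by funext i; simp only [Pi.add_apply]; ring
  map_smul' r x := by funext i; simp only [Pi.smul_apply, smul_eq_mul, RingHom.id_apply]; ring

theorem Lp_apply (c : ZMod N → Fin 5 → R) (x : ZMod N → R) (i : ZMod N) :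
    Lp c x i = c i 1 * x (i - 1) + c i 3 * x (i + 1) := rfl

theorem Lm_apply (c : ZMod N → Fin 5 → R) (x : ZMod N → R) (i : ZMod N) :
    Lm c x i = c i 0 * x (i - 2) + c i 2 * x i + c i 4 * x (i + 2) := rfl

/-- `L'₊ L₋ = L'₋ L₊`. -/
structure Refac (c c' : ZMod N → Fin 5 → R) : Prop where
  e1 : ∀ i, c' i 1 * c (i - 1) 0 = c' i 0 * c (i - 2) 1
  e2 : ∀ i, c' i 1 * c (i - 1) 2 + c' i 3 * c (i + 1) 0 = c' i 0 * c (i - 2) 3 + c' i 2 * c i 1
  e3 : ∀ i, c' i 1 * c (i - 1) 4 + c' i 3 * c (i + 1) 2 = c' i 2 * c i 3 + c' i 4 * c (i + 2) 1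
  e4 : ∀ i, c' i 3 * c (i + 1) 4 = c' i 4 * c (i + 2) 3

theorem Refac.comm {c c' : ZMod N → Fin 5 → R} (h : Refac c c') (x : ZMod N → R) :
    Lp c' (Lm c x) = Lm c' (Lp c x) := by
  funext i
  simp only [Lp_apply, Lm_apply]
  have a1 : i - 1 - 2 = i - 3 := by ring
  have a2 : i - 1 + 2 = i + 1 := by ring
  have a3 : i + 1 - 2 = i - 1 := by ring
  have a4 : i + 1 + 2 = i + 3 := by ring
  have a5 : i - 2 - 1 = i - 3 := by ring
  have a6 : i - 2 + 1 = i - 1 := by ring
  have a7 : i + 2 - 1 = i + 1 := by ring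
  have a8 : i + 2 + 1 = i + 3 := by ring
  rw [a1, a2, a3, a4, a5, a6, a7, a8]
  linear_combination x (i - 3) * h.e1 i + x (i - 1) * h.e2 i + x (i + 1) * h.e3 i
    + x (i + 3) * h.e4 i

/-- The product of the odd parts of the first `k` operators. -/
def Nk (L : ℕ → ZMod N → Fin 5 → R) : ℕ → ((ZMod N → R) →ₗ[R] (ZMod N → R))
  | 0 => LinearMap.id
  | k + 1 => (Lp (L k)).comp (Nk L k)

theorem Nk_succ (L : ℕ → ZMod N → Fin 5 → R) (k : ℕ) (x : ZMod N → R) :
    Nk L (k + 1) x = Lp (L k) (Nk L k x) := rfl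

theorem chain {L : ℕ → ZMod N → Fin 5 → R} (hL : ∀ k, Refac (L k) (L (k + 1)))
    {X : ℕ → ZMod N → R} {g : R} (h0 : Lp (L 0) (X 0) = 0)
    (h1 : ∀ j, Lp (L 0) (X (j + 1)) = g • Lm (L 0) (X j)) :
    ∀ k, Lp (L k) (Nk L k (X k)) = 0 ∧
      ∀ j, Lp (L k) (Nk L k (X (k + j + 1))) = g • Lm (L k) (Nk L k (X (k + j))) := by
  intro k
  induction k with
  | zero =>
    refine ⟨h0, fun j => ?_⟩
    have := h1 j
    simpa [Nk] using this
  | succ k ih =>
    obtain ⟨i0, i1⟩ := ih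
    constructor
    · have e := i1 0
      rw [add_zero] at e
      rw [Nk_succ, e, map_smul, (hL k).comm, i0, map_zero, smul_zero]
    · intro j
      have e := i1 (j + 1)
      have e2 : Nk L (k + 1) (X (k + 1 + j + 1)) = g • Lm (L k) (Nk L k (X (k + (j + 1)))) := by
        rw [← e, Nk_succ]
        congr 3
        ring
      rw [e2, map_smul, (hL k).comm, ← Nk_succ]
      congr 4
      ring

theorem chain_zero {L : ℕ → ZMod N → Fin 5 → R} (hL : ∀ k, Refac (L k) (L (k + 1)))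
    {X : ℕ → ZMod N → R} {g : R} (h0 : Lp (L 0) (X 0) = 0)
    (h1 : ∀ j, Lp (L 0) (X (j + 1)) = g • Lm (L 0) (X j)) (k j : ℕ) (hj : j < k) :
    Nk L k (X j) = 0 := by
  induction k with
  | zero => exact absurd hj (Nat.not_lt_zero _)
  | succ k ih =>
    rw [Nk_succ]
    rcases Nat.lt_succ_iff_lt_or_eq.1 hj with h | h
    · rw [ih h, map_zero]
    · rw [h]
      exact (chain hL h0 h1 k).1

/-! ### the initial chain -/

variable [NeZero N]

/-- the product of all other entries -/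
def bh (β : ZMod N → R) (i : ZMod N) : R := ∏ l ∈ Finset.univ.erase i, β l

theorem mul_bh (β : ZMod N → R) (i : ZMod N) : β i * bh β i = ∏ l, β l :=
  Finset.mul_prod_erase _ _ (Finset.mem_univ i)

def Xs (α β γ : ZMod N → R) : ℕ → ZMod N → R
  | 0 => fun i => bh β i
  | j + 1 => fun i => bh β i * (α i * Xs α β γ j (i - 1) + γ i * Xs α β γ j (i + 1))

/-- `w L = (T⁻¹ - T)(α T⁻¹ + β + γ T)`. -/
structure Init (w α β γ : ZMod N → R) (c : ZMod N → Fin 5 → R) : Prop where
  h0 : ∀ i, w i * c i 0 = α (i - 1)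
  h1 : ∀ i, w i * c i 1 = β (i - 1)
  h2 : ∀ i, w i * c i 2 = γ (i - 1) - α (i + 1)
  h3 : ∀ i, w i * c i 3 = -β (i + 1)
  h4 : ∀ i, w i * c i 4 = -γ (i + 1)

theorem init0 [IsDomain R] {w α β γ : ZMod N → R} {c : ZMod N → Fin 5 → R}
    (h : Init w α β γ c) (hw : ∀ i, w i ≠ 0) : Lp c (Xs α β γ 0) = 0 := by
  funext i
  apply mul_left_cancel₀ (hw i)
  rw [Pi.zero_apply, mul_zero, Lp_apply]
  show w i * (c i 1 * bh β (i - 1) + c i 3 * bh β (i + 1)) = 0
  linear_combination bh β (i - 1) * h.h1 i + bh β (i + 1) * h.h3 i + mul_bh β (i - 1)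
    - mul_bh β (i + 1)

theorem init1 [IsDomain R] {w α β γ : ZMod N → R} {c : ZMod N → Fin 5 → R}
    (h : Init w α β γ c) (hw : ∀ i, w i ≠ 0) (j : ℕ) :
    Lp c (Xs α β γ (j + 1)) = (∏ l, β l) • Lm c (Xs α β γ j) := by
  funext i
  apply mul_left_cancel₀ (hw i)
  rw [Pi.smul_apply, smul_eq_mul, Lp_apply, Lm_apply]
  show w i * (c i 1 * (bh β (i - 1) * (α (i - 1) * Xs α β γ j (i - 1 - 1)
      + γ (i - 1) * Xs α β γ j (i - 1 + 1))) + c i 3 * (bh β (i + 1) * (α (i + 1) *
      Xs α β γ j (i + 1 - 1) + γ (i + 1) * Xs α β γ j (i + 1 + 1)))) = _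
  have a1 : i - 1 - 1 = i - 2 := by ring
  have a2 : i - 1 + 1 = i := by ring
  have a3 : i + 1 - 1 = i := by ring
  have a4 : i + 1 + 1 = i + 2 := by ring
  rw [a1, a2, a3, a4]
  generalize Xs α β γ j (i - 2) = x
  generalize Xs α β γ j i = y
  generalize Xs α β γ j (i + 2) = z
  linear_combination (bh β (i - 1) * (α (i - 1) * x + γ (i - 1) * y)) * h.h1 i
    + (bh β (i + 1) * (α (i + 1) * y + γ (i + 1) * z)) * h.h3 i
    + (α (i - 1) * x + γ (i - 1) * y) * mul_bh β (i - 1)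
    - (α (i + 1) * y + γ (i + 1) * z) * mul_bh β (i + 1)
    - (∏ l, β l) * (x * h.h0 i + y * h.h2 i + z * h.h4 i)

end op

/-! ### parity -/

/-- The parity of an index modulo `2n`. -/
def par (n : ℕ) : ZMod (2 * n) →+* ZMod 2 := ZMod.castHom (Dvd.intro n rfl) (ZMod 2)

theorem Nk_par {n : ℕ} {R : Type*} [CommRing R] (L : ℕ → ZMod (2 * n) → Fin 5 → R) (k : ℕ)
    (x : ZMod (2 * n) → R) (i : ZMod (2 * n)) (hx : ∀ s, par n s = par n i + k → x s = 0) :
    Nk L k x i = 0 := by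
  induction k generalizing i with
  | zero => exact hx i (by simp)
  | succ k ih =>
    rw [Nk_succ, Lp_apply, ih (i - 1), ih (i + 1), mul_zero, mul_zero, add_zero]
    · intro s hs
      refine hx s ?_
      rw [hs, map_add, map_one]
      push_cast
      ring
    · intro s hs
      refine hx s ?_
      rw [hs, map_sub, map_one]
      push_cast
      have : (-1 : ZMod 2) = 1 := by decide
      rw [sub_eq_add_neg, this]
      ring

/-! ### normalized solutions over `K[t]` -/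

theorem sol {K : Type*} [Field K] {ι κ : Type*} [Fintype ι] [Fintype κ]
    (h : Fintype.card κ < Fintype.card ι) (M : κ → ι → K[X]) :
    ∃ v : ι → K[X], (∀ k, ∑ i, M k i * v i = 0) ∧ ∃ i, (v i).eval 0 ≠ 0 := by
  classical
  have hli : ¬ LinearIndependent K[X] (fun i : ι => fun k : κ => M k i) := by
    intro hl
    have := hl.fintype_card_le_finrank
    rw [Module.finrank_fintype_fun_eq_card] at this
    omega
  obtain ⟨g, hg, i0, hi0⟩ := Fintype.not_linearIndependent_iff.1 hli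
  have hg' : ∀ k, ∑ i, M k i * g i = 0 := by
    intro k
    have := congrFun hg k
    rw [Finset.sum_apply] at this
    simp only [Pi.smul_apply, smul_eq_mul, Pi.zero_apply] at this
    rw [← this]
    exact Finset.sum_congr rfl fun i _ => mul_comm _ _
  have hex : ∃ d, ¬ ∀ i, X ^ d ∣ g i := by
    refine ⟨(g i0).natDegree + 1, fun hd => hi0 ?_⟩
    have h2 := hd i0
    by_contra hne
    have := Polynomial.natDegree_le_of_dvd h2 hne
    rw [natDegree_X_pow] at this
    omega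
  classical
  have hmin := Nat.find_spec hex
  have hlt := fun d (hd : d < Nat.find hex) => Nat.find_min hex hd
  obtain ⟨d, hd⟩ : ∃ d, Nat.find hex = d + 1 := by
    rcases Nat.eq_zero_or_pos (Nat.find hex) with h0 | h0
    · rw [h0] at hmin
      exact absurd (fun i => by rw [pow_zero]; exact one_dvd _) hmin
    · exact ⟨Nat.find hex - 1, by omega⟩
  have hd1 : ∀ i, X ^ d ∣ g i := by
    have := hlt d (by omega)
    push Not at this
    exact this
  rw [hd] at hmin
  push Not at hmin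
  obtain ⟨i1, hi1⟩ := hmin
  choose u hu using hd1
  refine ⟨u, fun k => ?_, i1, fun h0 => hi1 ?_⟩
  · have e : X ^ d * ∑ i, M k i * u i = 0 := by
      rw [← hg' k, Finset.mul_sum]
      refine Finset.sum_congr rfl fun i _ => ?_
      rw [hu i]
      ring
    exact (mul_eq_zero.1 e).resolve_left (pow_ne_zero _ X_ne_zero)
  · rw [hu i1, pow_succ]
    refine mul_dvd_mul_left _ ?_
    rw [X_dvd_iff, coeff_zero_eq_eval_zero]
    exact h0

end Pool.Agent.X98.DV
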